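import Pool.Agent.H336R4.PF.Defs

/-!
# TASK Q: growth of `G` in vertical strips

The comparison function in the Phragmén-Lindelöf argument is `cos (π Λ s / N) ^ N * (s + B) ^ m`, with
`N` so large that the cosine has no zeros in the strip.
-/

set_option autoImplicit false

open MeasureTheory Set Filter Topology Complex

namespace Pool.Agent.H394R3.PFQ

open Pool.Agent.H336R4.PF

lemma norm_Gamma_le {z : ℂ} (hz : 0 < z.re) : ‖Complex.Gamma z‖ ≤ Real.Gamma z.re := by
  rw [Complex.Gamma_eq_integral hz, Complex.GammaIntegral, Real.Gamma_eq_integral hz]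
  refine (norm_integral_le_integral_norm _).trans_eq ?_
  apply setIntegral_congr_fun measurableSet_Ioi
  intro x hx
  have hx : 0 < x := hx
  simp only [norm_mul, Complex.norm_real, Real.norm_of_nonneg (Real.exp_pos _).le]
  rw [Complex.norm_cpow_eq_rpow_re_of_pos hx]
  simp

lemma norm_sin_le (z : ℂ) : ‖Complex.sin z‖ ≤ Real.exp |z.im| := by
  rw [Complex.sin]
  rw [norm_div, norm_mul, Complex.norm_I, mul_one, Complex.norm_ofNat]
  have h1 : ‖Complex.exp (-z * Complex.I) - Complex.exp (z * Complex.I)‖ ≤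
      Real.exp |z.im| + Real.exp |z.im| := by
    refine (norm_sub_le _ _).trans ?_
    rw [Complex.norm_exp, Complex.norm_exp]
    apply add_le_add
    · apply Real.exp_le_exp.2
      have : (-z * Complex.I).re = z.im := by simp
      rw [this]; exact le_abs_self _
    · apply Real.exp_le_exp.2
      have : (z * Complex.I).re = -z.im := by simp
      rw [this]; exact neg_le_abs _
  linarith

lemma norm_cos_le (z : ℂ) : ‖Complex.cos z‖ ≤ Real.exp |z.im| := by
  rw [Complex.cos]
  rw [norm_div, Complex.norm_ofNat]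
  have h1 : ‖Complex.exp (z * Complex.I) + Complex.exp (-z * Complex.I)‖ ≤
      Real.exp |z.im| + Real.exp |z.im| := by
    refine (norm_add_le _ _).trans ?_
    rw [Complex.norm_exp, Complex.norm_exp]
    apply add_le_add
    · apply Real.exp_le_exp.2
      have : (z * Complex.I).re = -z.im := by simp
      rw [this]; exact neg_le_abs _
    · apply Real.exp_le_exp.2
      have : (-z * Complex.I).re = z.im := by simp
      rw [this]; exact le_abs_self _
  linarith

lemma norm_cos_ge {w : ℂ} (hw : |w.re| ≤ 1) : Real.exp |w.im| / 4 ≤ ‖Complex.cos w‖ := by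
  have hre : (Complex.cos w).re = Real.cos w.re * Real.cosh w.im := by
    have e : Complex.cos w = ((Real.cos w.re * Real.cosh w.im : ℝ) : ℂ) -
        ((Real.sin w.re * Real.sinh w.im : ℝ) : ℂ) * Complex.I := by
      rw [Complex.cos_eq]
      push_cast
      rfl
    rw [e]
    simp [-Complex.ofReal_mul]
  have hc : 1 / 2 ≤ Real.cos w.re := by
    have h1 := Real.one_sub_sq_div_two_le_cos (x := w.re)
    have h2 : w.re ^ 2 ≤ 1 := by
      rw [← sq_abs]
      have := abs_nonneg w.re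
      nlinarith
    linarith
  have hch : Real.exp |w.im| / 2 ≤ Real.cosh w.im := by
    rw [← Real.cosh_abs, Real.cosh_eq]
    have := Real.exp_pos (-|w.im|)
    linarith
  have he := Real.exp_pos |w.im|
  calc Real.exp |w.im| / 4 = 1 / 2 * (Real.exp |w.im| / 2) := by ring
    _ ≤ Real.cos w.re * Real.cosh w.im := mul_le_mul hc hch (by positivity) (by linarith)
    _ = (Complex.cos w).re := hre.symm
    _ ≤ ‖Complex.cos w‖ := Complex.re_le_norm _

lemma inv_Gamma_le {w : ℂ} (hw : w.re ≤ 0) :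
    ‖(Complex.Gamma w)⁻¹‖ ≤ Real.Gamma (1 - w.re) * Real.exp (Real.pi * |w.im|) := by
  have h1 : 0 < (1 - w).re := by simp; linarith
  have hne : Complex.Gamma (1 - w) ≠ 0 := Complex.Gamma_ne_zero_of_re_pos h1
  have h2 := Complex.Gamma_mul_Gamma_one_sub w
  have h3 : ‖Complex.Gamma (1 - w)‖ ≤ Real.Gamma (1 - w.re) := by
    have := norm_Gamma_le h1
    simpa using this
  have hG : 0 < Real.Gamma (1 - w.re) := Real.Gamma_pos_of_pos (by linarith)
  rcases eq_or_ne (Complex.sin (Real.pi * w)) 0 with hs | hs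
  · rw [hs, div_zero] at h2
    have : Complex.Gamma w = 0 := by
      rcases mul_eq_zero.1 h2 with h | h
      · exact h
      · exact absurd h hne
    rw [this, inv_zero, norm_zero]
    positivity
  · have hpi : (Real.pi : ℂ) ≠ 0 := by exact_mod_cast Real.pi_ne_zero
    have hGw : Complex.Gamma w ≠ 0 := by
      intro h0
      rw [h0, zero_mul] at h2
      have := div_ne_zero hpi hs
      exact this h2.symm
    have h4 : (Complex.Gamma w)⁻¹ = Complex.Gamma (1 - w) * Complex.sin (Real.pi * w) / Real.pi := by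
      rw [eq_div_iff hs] at h2
      rw [eq_div_iff hpi]
      calc (Complex.Gamma w)⁻¹ * (Real.pi : ℂ) = (Complex.Gamma w)⁻¹ *
            (Complex.Gamma w * Complex.Gamma (1 - w) * Complex.sin (Real.pi * w)) := by rw [h2]
        _ = ((Complex.Gamma w)⁻¹ * Complex.Gamma w) *
            (Complex.Gamma (1 - w) * Complex.sin (Real.pi * w)) := by ring
        _ = _ := by rw [inv_mul_cancel₀ hGw, one_mul]
    rw [h4, norm_div, norm_mul, Complex.norm_real, Real.norm_of_nonneg Real.pi_pos.le]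
    have h5 : ‖Complex.sin (Real.pi * w)‖ ≤ Real.exp (Real.pi * |w.im|) := by
      refine (norm_sin_le _).trans_eq ?_
      congr 1
      simp [abs_mul, abs_of_pos Real.pi_pos]
    rw [div_le_iff₀ Real.pi_pos]
    calc ‖Complex.Gamma (1 - w)‖ * ‖Complex.sin (Real.pi * w)‖
        ≤ Real.Gamma (1 - w.re) * Real.exp (Real.pi * |w.im|) :=
          mul_le_mul h3 h5 (norm_nonneg _) hG.le
      _ ≤ Real.Gamma (1 - w.re) * Real.exp (Real.pi * |w.im|) * Real.pi := by
          have : (1:ℝ) ≤ Real.pi := by linarith [Real.pi_gt_three]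
          have h0 : 0 ≤ Real.Gamma (1 - w.re) * Real.exp (Real.pi * |w.im|) := by positivity
          nlinarith

lemma lser_bound (a : ℕ → ℂ) (hR : Ram a) {x : ℝ} (hx : 1 < x) :
    ∃ C : ℝ, 0 ≤ C ∧ ∀ s : ℂ, s.re = x → ‖LSeries a s‖ ≤ C := by
  obtain ⟨C, hC⟩ := hR ((x - 1) / 2) (by linarith)
  have hs : LSeriesSummable a (x : ℂ) := by
    apply LSeriesSummable_of_le_const_mul_rpow (x := 1 + (x - 1) / 2)
    · simp; linarith
    · refine ⟨C, fun n hn => ?_⟩
      have := hC n (Nat.one_le_iff_ne_zero.2 hn)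
      have e : 1 + (x - 1) / 2 - 1 = (x - 1) / 2 := by ring
      rw [e]
      exact this
  have hs' : Summable fun n => ‖LSeries.term a (x : ℂ) n‖ := hs.norm
  refine ⟨∑' n, ‖LSeries.term a (x : ℂ) n‖, tsum_nonneg fun n => norm_nonneg _, fun s hsx => ?_⟩
  have e : (fun n => ‖LSeries.term a s n‖) = fun n => ‖LSeries.term a (x : ℂ) n‖ := by
    funext n
    rw [LSeries.norm_term_eq, LSeries.norm_term_eq, hsx]
    simp
  unfold LSeries
  refine (norm_tsum_le_tsum_norm ?_).trans_eq ?_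
  · rw [e]; exact hs'
  · rw [e]

/-- order of growth against `exp (B exp (c |im z|))` -/
lemma growth_aux (ρ R c : ℝ) (hR : 1 ≤ R) (hc : 0 < c) : ∃ B : ℝ, ∀ z : ℂ, |z.re| ≤ R → 1 ≤ ‖z‖ →
    ‖z‖ ^ ρ ≤ B * Real.exp (c * |z.im|) := by
  obtain ⟨n, hn⟩ := exists_nat_ge ρ
  refine ⟨n.factorial / c ^ n * Real.exp (c * R), fun z hz h1 => ?_⟩
  have h2 : ‖z‖ ^ ρ ≤ ‖z‖ ^ n := by
    rw [← Real.rpow_natCast]
    exact Real.rpow_le_rpow_of_exponent_le h1 hn
  have h3 : ‖z‖ ≤ R + |z.im| := (Complex.norm_le_abs_re_add_abs_im z).trans (by linarith)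
  have h4 : ‖z‖ ^ n ≤ (R + |z.im|) ^ n := pow_le_pow_left₀ (norm_nonneg _) h3 n
  have h5 := Real.pow_div_factorial_le_exp (c * (R + |z.im|)) (by positivity) n
  have hf : (0:ℝ) < n.factorial := by exact_mod_cast n.factorial_pos
  have hcn : 0 < c ^ n := pow_pos hc n
  rw [div_le_iff₀ hf, mul_pow] at h5
  have h6 : (R + |z.im|) ^ n ≤ n.factorial / c ^ n * Real.exp (c * (R + |z.im|)) := by
    rw [div_mul_eq_mul_div, le_div_iff₀ hcn]
    linarith
  calc ‖z‖ ^ ρ ≤ n.factorial / c ^ n * Real.exp (c * (R + |z.im|)) := h2.trans (h4.trans h6)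
    _ = n.factorial / c ^ n * Real.exp (c * R) * Real.exp (c * |z.im|) := by
      rw [mul_add, Real.exp_add]; ring

theorem strip (hFEX : TaskFEX) : StripGrowth := by
  intro a hRam m G hC Q k lam μ ω hQ hFE K
  obtain ⟨hd, ⟨ρ, C₀, hgr⟩, hL⟩ := hC
  have hFE' := hFEX m G hd Q k lam μ ω hQ hFE
  obtain ⟨hlam, hμ, hω, -⟩ := hFE
  set Λ := ∑ j, lam j with hΛ
  have hΛ0 : 0 ≤ Λ := Finset.sum_nonneg fun j _ => (hlam j).le
  have hterm : ∀ j, 0 ≤ (μ j).re / lam j := fun j => div_nonneg (hμ j) (hlam j).le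
  have hsum0 : 0 ≤ ∑ j, (μ j).re / lam j := Finset.sum_nonneg fun j _ => hterm j
  set σ : ℝ := |K| + 1 + ∑ j, (μ j).re / lam j with hσ
  have hσK : |K| ≤ σ := by linarith
  have hσ1 : 1 ≤ σ := by linarith [abs_nonneg K]
  have hσj : ∀ j, (μ j).re ≤ lam j * σ := by
    intro j
    have h1 : (μ j).re / lam j ≤ ∑ j, (μ j).re / lam j :=
      Finset.single_le_sum (f := fun j => (μ j).re / lam j) (fun i _ => hterm i) (Finset.mem_univ j)
    have h2 : (μ j).re / lam j ≤ σ := by linarith [abs_nonneg K]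
    rw [div_le_iff₀ (hlam j)] at h2
    linarith
  -- right line
  obtain ⟨CR, hCR0, hCR⟩ := lser_bound a hRam (x := 1 + σ) (by linarith)
  have right : ∀ s : ℂ, s.re = 1 + σ → ‖G s‖ ≤ ‖s - 1‖ ^ m * CR := by
    intro s hs
    rw [hL s (by linarith), norm_mul, norm_pow]
    exact mul_le_mul_of_nonneg_left (hCR s hs) (by positivity)
  -- left line
  set cj : Fin k → ℝ := fun j => Real.Gamma (lam j * (1 + σ) + (μ j).re) *
    (Real.Gamma (1 - (-(lam j * σ) + (μ j).re)) * Real.exp (Real.pi * |(μ j).im|)) with hcj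
  have hcj0 : ∀ j, 0 ≤ cj j := by
    intro j
    have h1 : 0 < lam j * (1 + σ) + (μ j).re := by
      have := hμ j
      have := hlam j
      positivity
    have h2 : 0 < 1 - (-(lam j * σ) + (μ j).re) := by linarith [hσj j]
    have := Real.Gamma_pos_of_pos h1
    have := Real.Gamma_pos_of_pos h2
    rw [hcj]
    positivity
  have hCG0 : 0 ≤ ∏ j, cj j := Finset.prod_nonneg fun j _ => hcj0 j
  set CL : ℝ := Q ^ (1 + 2 * σ) * (∏ j, cj j) * CR with hCL
  have hCL0 : 0 ≤ CL := by
    have := Real.rpow_nonneg hQ.le (1 + 2 * σ)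
    positivity
  have left : ∀ s : ℂ, s.re = -σ → ‖G s‖ ≤ ‖s - 1‖ ^ m * CL * Real.exp (Real.pi * Λ * |s.im|) := by
    intro s hs
    have hE := congrArg norm (hFE' s)
    simp only [norm_mul, norm_pow, norm_neg, norm_one, one_pow, one_mul, hω, norm_prod,
      RCLike.norm_conj] at hE
    rw [Complex.norm_cpow_eq_rpow_re_of_pos hQ, Complex.norm_cpow_eq_rpow_re_of_pos hQ] at hE
    have hre1 : (1 - s).re = 1 + σ := by simp [hs]
    rw [hre1, hs] at hE
    have hs0 : s ≠ 0 := by
      intro h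
      rw [h] at hs
      simp at hs
      linarith
    have hsn : 0 < ‖s‖ ^ m := pow_pos (norm_pos_iff.2 hs0) m
    have hr : ‖G (1 - starRingEnd ℂ s)‖ ≤ ‖s‖ ^ m * CR := by
      have h1 := right (1 - starRingEnd ℂ s) (by simp [hs])
      have h2 : ‖(1 - starRingEnd ℂ s) - 1‖ = ‖s‖ := by
        have : (1 - starRingEnd ℂ s) - 1 = - starRingEnd ℂ s := by ring
        rw [this, norm_neg, RCLike.norm_conj]
      rwa [h2] at h1
    -- the gamma factors
    have hzre : ∀ j, ((lam j : ℂ) * (1 - s) + starRingEnd ℂ (μ j)).re = lam j * (1 + σ) + (μ j).re := by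
      intro j
      simp [hs]
    have hzpos : ∀ j, 0 < ((lam j : ℂ) * (1 - s) + starRingEnd ℂ (μ j)).re := by
      intro j
      rw [hzre]
      have := hμ j
      have := hlam j
      positivity
    have hzne : ∀ j, Complex.Gamma ((lam j : ℂ) * (1 - s) + starRingEnd ℂ (μ j)) ≠ 0 := fun j =>
      Complex.Gamma_ne_zero_of_re_pos (hzpos j)
    have hwre : ∀ j, ((lam j : ℂ) * s + μ j).re = -(lam j * σ) + (μ j).re := by
      intro j
      simp [hs]
    have hwim : ∀ j, ((lam j : ℂ) * s + μ j).im = lam j * s.im + (μ j).im := by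
      intro j
      simp
    have hj : ∀ j, ‖Complex.Gamma ((lam j : ℂ) * (1 - s) + starRingEnd ℂ (μ j))‖ *
        ‖(Complex.Gamma ((lam j : ℂ) * s + μ j))⁻¹‖ ≤ cj j * Real.exp (Real.pi * lam j * |s.im|) := by
      intro j
      have h1 := norm_Gamma_le (hzpos j)
      have h2 := inv_Gamma_le (w := (lam j : ℂ) * s + μ j) (by rw [hwre]; linarith [hσj j])
      rw [hzre] at h1
      rw [hwre, hwim] at h2
      have h3 : |lam j * s.im + (μ j).im| ≤ lam j * |s.im| + |(μ j).im| := by
        refine (abs_add_le _ _).trans_eq ?_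
        rw [abs_mul, abs_of_pos (hlam j)]
      have h4 : Real.exp (Real.pi * |lam j * s.im + (μ j).im|) ≤
          Real.exp (Real.pi * |(μ j).im|) * Real.exp (Real.pi * lam j * |s.im|) := by
        rw [← Real.exp_add]
        apply Real.exp_le_exp.2
        have := mul_le_mul_of_nonneg_left h3 Real.pi_pos.le
        linarith
      have h5 : 0 < 1 - (-(lam j * σ) + (μ j).re) := by linarith [hσj j]
      have h6 := (Real.Gamma_pos_of_pos h5).le
      calc _ ≤ Real.Gamma (lam j * (1 + σ) + (μ j).re) *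
            (Real.Gamma (1 - (-(lam j * σ) + (μ j).re)) *
              (Real.exp (Real.pi * |(μ j).im|) * Real.exp (Real.pi * lam j * |s.im|))) := by
            apply mul_le_mul h1 (h2.trans _) (norm_nonneg _) ((norm_nonneg _).trans h1)
            exact mul_le_mul_of_nonneg_left h4 h6
        _ = _ := by rw [hcj]; ring
    have hprod : (∏ j, ‖Complex.Gamma ((lam j : ℂ) * (1 - s) + starRingEnd ℂ (μ j))‖) *
        (∏ j, ‖(Complex.Gamma ((lam j : ℂ) * s + μ j))⁻¹‖) ≤
        (∏ j, cj j) * Real.exp (Real.pi * Λ * |s.im|) := by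
      rw [← Finset.prod_mul_distrib]
      refine (Finset.prod_le_prod (fun j _ => by positivity) fun j _ => hj j).trans_eq ?_
      rw [Finset.prod_mul_distrib, ← Real.exp_sum]
      congr 2
      rw [hΛ, Finset.mul_sum, Finset.sum_mul]
    set P1 := ∏ j, ‖Complex.Gamma ((lam j : ℂ) * (1 - s) + starRingEnd ℂ (μ j))‖ with hP1
    set P2 := ∏ j, ‖(Complex.Gamma ((lam j : ℂ) * s + μ j))⁻¹‖ with hP2
    have hP1pos : 0 < P1 := Finset.prod_pos fun j _ => norm_pos_iff.2 (hzne j)
    have hP2nn : 0 ≤ P2 := Finset.prod_nonneg fun j _ => norm_nonneg _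
    have hinv : ∏ j, ‖(Complex.Gamma ((lam j : ℂ) * (1 - s) + starRingEnd ℂ (μ j)))⁻¹‖ = P1⁻¹ := by
      rw [hP1, ← Finset.prod_inv_distrib]
      apply Finset.prod_congr rfl
      intro j _
      rw [norm_inv]
    rw [hinv] at hE
    have hQs : 0 < Q ^ (-σ) := Real.rpow_pos_of_pos hQ _
    have hQ1 : 0 ≤ Q ^ (1 + σ) := Real.rpow_nonneg hQ.le _
    have hQe : Q ^ (1 + 2 * σ) = Q ^ (1 + σ) * (Q ^ (-σ))⁻¹ := by
      rw [← Real.rpow_neg hQ.le, neg_neg, ← Real.rpow_add hQ]
      congr 1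
      ring
    have hkey : ‖G s‖ * ‖s‖ ^ m = Q ^ (1 + 2 * σ) * (P1 * P2) *
        (‖G (1 - starRingEnd ℂ s)‖ * ‖s - 1‖ ^ m) := by
      rw [hQe]
      calc ‖G s‖ * ‖s‖ ^ m = (Q ^ (-σ))⁻¹ * P1 * (Q ^ (-σ) * P1⁻¹ * (‖G s‖ * ‖s‖ ^ m)) := by
            field_simp
        _ = _ := by
            rw [hE]; ring
    have h7 : ‖G s‖ * ‖s‖ ^ m ≤ (‖s - 1‖ ^ m * CL * Real.exp (Real.pi * Λ * |s.im|)) * ‖s‖ ^ m := by
      rw [hkey]
      have hQ2 : 0 ≤ Q ^ (1 + 2 * σ) := Real.rpow_nonneg hQ.le _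
      calc Q ^ (1 + 2 * σ) * (P1 * P2) * (‖G (1 - starRingEnd ℂ s)‖ * ‖s - 1‖ ^ m)
          ≤ Q ^ (1 + 2 * σ) * ((∏ j, cj j) * Real.exp (Real.pi * Λ * |s.im|)) *
            ((‖s‖ ^ m * CR) * ‖s - 1‖ ^ m) := by
            apply mul_le_mul
            · exact mul_le_mul_of_nonneg_left hprod hQ2
            · exact mul_le_mul_of_nonneg_right hr (by positivity)
            · positivity
            · positivity
        _ = _ := by rw [hCL]; ring
    exact le_of_mul_le_mul_right h7 hsn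
  -- the comparison function
  set B : ℝ := 2 * σ + 1 with hB
  obtain ⟨N, hN⟩ := exists_nat_ge (Real.pi * Λ * (1 + σ) + 1)
  have hN1 : (1:ℝ) ≤ N := by
    have : 0 ≤ Real.pi * Λ * (1 + σ) := by have := Real.pi_pos; positivity
    linarith
  have hNpos : (0:ℝ) < N := by linarith
  have hshift : ∀ s : ℂ, -σ ≤ s.re → 1 ≤ ‖s + B‖ ∧ ‖s - 1‖ ≤ ‖s + B‖ := by
    intro s hs
    constructor
    · have h1 : (s + B).re = s.re + B := by simp
      have h2 := Complex.re_le_norm (s + B)
      rw [h1] at h2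
      linarith
    · rw [← Real.sqrt_sq (norm_nonneg (s + B)), ← Real.sqrt_sq (norm_nonneg (s - 1))]
      apply Real.sqrt_le_sqrt
      rw [← Complex.normSq_eq_norm_sq, ← Complex.normSq_eq_norm_sq, Complex.normSq_apply,
        Complex.normSq_apply]
      simp only [Complex.add_re, Complex.add_im, Complex.sub_re, Complex.sub_im, Complex.ofReal_re,
        Complex.ofReal_im, Complex.one_re, Complex.one_im, add_zero, sub_zero]
      nlinarith
  set w : ℂ → ℂ := fun s => ((Real.pi * Λ / N : ℝ) : ℂ) * s with hw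
  have hwre : ∀ s : ℂ, -σ ≤ s.re → s.re ≤ 1 + σ → |(w s).re| ≤ 1 := by
    intro s h1 h2
    have e : (w s).re = Real.pi * Λ / N * s.re := by simp [hw]
    have h3 : |s.re| ≤ 1 + σ := by
      rw [abs_le]
      constructor <;> linarith
    have h4 : 0 ≤ Real.pi * Λ := by have := Real.pi_pos; positivity
    rw [e, abs_mul, abs_of_nonneg (div_nonneg h4 hNpos.le), div_mul_eq_mul_div, div_le_one hNpos]
    have := mul_le_mul_of_nonneg_left h3 h4
    linarith
  have hwim : ∀ s : ℂ, |(w s).im| * N = Real.pi * Λ * |s.im| := by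
    intro s
    have e : (w s).im = Real.pi * Λ / N * s.im := by simp [hw]
    have h4 : 0 ≤ Real.pi * Λ := by have := Real.pi_pos; positivity
    rw [e, abs_mul, abs_of_nonneg (div_nonneg h4 hNpos.le)]
    field_simp
  have hcu : ∀ s : ℂ, ‖Complex.cos (w s) ^ N‖ ≤ Real.exp (Real.pi * Λ * |s.im|) := by
    intro s
    rw [norm_pow, ← hwim s, mul_comm, Real.exp_nat_mul]
    exact pow_le_pow_left₀ (norm_nonneg _) (norm_cos_le _) N
  have hcl : ∀ s : ℂ, -σ ≤ s.re → s.re ≤ 1 + σ →
      Real.exp (Real.pi * Λ * |s.im|) / 4 ^ N ≤ ‖Complex.cos (w s) ^ N‖ := by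
    intro s h1 h2
    rw [norm_pow, ← hwim s, mul_comm, Real.exp_nat_mul, ← div_pow]
    exact pow_le_pow_left₀ (by positivity) (norm_cos_ge (hwre s h1 h2)) N
  have hcl' : ∀ s : ℂ, -σ ≤ s.re → s.re ≤ 1 + σ → 0 < ‖Complex.cos (w s) ^ N‖ := fun s h1 h2 =>
    lt_of_lt_of_le (by positivity) (hcl s h1 h2)
  have h4N : (0:ℝ) < 4 ^ N := by positivity
  have hpos : ∀ s : ℂ, -σ ≤ s.re → s.re ≤ 1 + σ → 0 < ‖Complex.cos (w s) ^ N * (s + B) ^ m‖ := by
    intro s h1 h2
    rw [norm_mul, norm_pow (s + (B : ℂ))]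
    exact mul_pos (hcl' s h1 h2) (pow_pos (lt_of_lt_of_le one_pos (hshift s h1).1) m)
  set h : ℂ → ℂ := fun s => G s / (Complex.cos (w s) ^ N * (s + B) ^ m) with hh
  set C₁ : ℝ := 4 ^ N * (CL + CR) with hC₁
  have key : ∀ z : ℂ, -σ ≤ z.re → z.re ≤ 1 + σ → ‖h z‖ ≤ C₁ := by
    intro z hza hzb
    apply PhragmenLindelof.vertical_strip (a := -σ) (b := 1 + σ) (f := h) (C := C₁) ?_ ?_ ?_ ?_ hza hzb
    · apply DifferentiableOn.diffContOnCl
      intro v hv
      have hv' : v ∈ Complex.re ⁻¹' (Icc (-σ) (1 + σ)) := by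
        have : closure (Complex.re ⁻¹' (Ioo (-σ) (1 + σ))) ⊆ Complex.re ⁻¹' (Icc (-σ) (1 + σ)) :=
          closure_minimal (preimage_mono Ioo_subset_Icc_self) (isClosed_Icc.preimage Complex.continuous_re)
        exact this hv
      apply DifferentiableAt.differentiableWithinAt
      apply DifferentiableAt.div
      · exact hd v
      · rw [hw]
        fun_prop
      · exact norm_pos_iff.1 (hpos v hv'.1 hv'.2)
    · have hw0 : 0 < 1 + σ - -σ := by linarith
      set c : ℝ := Real.pi / (1 + σ - -σ) / 2 with hc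
      have hcpos : 0 < c := by
        have := Real.pi_pos
        positivity
      obtain ⟨B', hB'⟩ := growth_aux ρ (1 + σ) c (by linarith) hcpos
      refine ⟨c, ?_, B', ?_⟩
      · rw [hc]
        have : 0 < Real.pi / (1 + σ - -σ) := div_pos Real.pi_pos hw0
        linarith
      · apply Asymptotics.IsBigO.of_bound (4 ^ N * |C₀|)
        rw [Filter.eventually_inf_principal]
        have hev : ∀ᶠ z : ℂ in comap (_root_.abs ∘ Complex.im) atTop, 1 ≤ (_root_.abs ∘ Complex.im) z :=
          tendsto_comap.eventually (eventually_ge_atTop 1)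
        filter_upwards [hev] with z hz1 hz
        have hz1 : 1 ≤ |z.im| := hz1
        have ha : -σ ≤ z.re := (mem_preimage.1 hz).1.le
        have hb : z.re ≤ 1 + σ := (mem_preimage.1 hz).2.le
        have hz2 : |z.re| ≤ 1 + σ := by
          rw [abs_le]
          constructor <;> linarith
        have hz3 : 1 ≤ ‖z‖ := hz1.trans (Complex.abs_im_le_norm z)
        rw [Real.norm_of_nonneg (Real.exp_pos _).le]
        have h1 : ‖G z‖ ≤ |C₀| * Real.exp (B' * Real.exp (c * |z.im|)) := by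
          refine (hgr z).trans ?_
          refine (mul_le_mul_of_nonneg_right (le_abs_self _) (Real.exp_pos _).le).trans ?_
          apply mul_le_mul_of_nonneg_left _ (abs_nonneg _)
          exact Real.exp_le_exp.2 (hB' z hz2 hz3)
        rw [hh]
        simp only []
        rw [norm_div, div_le_iff₀ (hpos z ha hb)]
        have h2 : 1 ≤ 4 ^ N * ‖Complex.cos (w z) ^ N * (z + B) ^ m‖ := by
          rw [norm_mul, norm_pow (z + (B : ℂ)), ← mul_assoc]
          have h3 : 1 ≤ 4 ^ N * ‖Complex.cos (w z) ^ N‖ := by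
            have h4 := hcl z ha hb
            rw [div_le_iff₀ h4N] at h4
            have h5 : 1 ≤ Real.exp (Real.pi * Λ * |z.im|) := by
              apply Real.one_le_exp
              have := Real.pi_pos
              positivity
            linarith
          have h6 : 1 ≤ ‖z + (B : ℂ)‖ ^ m := one_le_pow₀ (hshift z ha).1
          nlinarith
        calc ‖G z‖ ≤ |C₀| * Real.exp (B' * Real.exp (c * |z.im|)) * 1 := by rw [mul_one]; exact h1
          _ ≤ |C₀| * Real.exp (B' * Real.exp (c * |z.im|)) *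
              (4 ^ N * ‖Complex.cos (w z) ^ N * (z + B) ^ m‖) :=
              mul_le_mul_of_nonneg_left h2 (by positivity)
          _ = _ := by ring
    · intro v hv
      have ha : -σ ≤ v.re := hv.ge
      have hb : v.re ≤ 1 + σ := by rw [hv]; linarith
      rw [hh]
      simp only []
      rw [norm_div, div_le_iff₀ (hpos v ha hb)]
      refine (left v hv).trans ?_
      have h1 := hcl v ha hb
      rw [div_le_iff₀ h4N] at h1
      have h2 := pow_le_pow_left₀ (norm_nonneg _) (hshift v ha).2 m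
      rw [norm_mul, norm_pow (v + (B : ℂ))]
      calc ‖v - 1‖ ^ m * CL * Real.exp (Real.pi * Λ * |v.im|)
          ≤ ‖v + (B : ℂ)‖ ^ m * CL * (‖Complex.cos (w v) ^ N‖ * 4 ^ N) := by
            apply mul_le_mul _ h1 (Real.exp_pos _).le (by positivity)
            exact mul_le_mul_of_nonneg_right h2 hCL0
        _ = (4 ^ N * CL) * (‖Complex.cos (w v) ^ N‖ * ‖v + (B : ℂ)‖ ^ m) := by ring
        _ ≤ C₁ * (‖Complex.cos (w v) ^ N‖ * ‖v + (B : ℂ)‖ ^ m) := by
            apply mul_le_mul_of_nonneg_right _ (by positivity)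
            rw [hC₁]
            apply mul_le_mul_of_nonneg_left _ h4N.le
            linarith
    · intro v hv
      have ha : -σ ≤ v.re := by rw [hv]; linarith
      have hb : v.re ≤ 1 + σ := hv.le
      rw [hh]
      simp only []
      rw [norm_div, div_le_iff₀ (hpos v ha hb)]
      refine (right v hv).trans ?_
      have h1 := hcl v ha hb
      rw [div_le_iff₀ h4N] at h1
      have h5 : 1 ≤ Real.exp (Real.pi * Λ * |v.im|) := by
        apply Real.one_le_exp
        have := Real.pi_pos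
        positivity
      have h2 := pow_le_pow_left₀ (norm_nonneg _) (hshift v ha).2 m
      rw [norm_mul, norm_pow (v + (B : ℂ))]
      calc ‖v - 1‖ ^ m * CR = ‖v - 1‖ ^ m * CR * 1 := by ring
        _ ≤ ‖v + (B : ℂ)‖ ^ m * CR * (‖Complex.cos (w v) ^ N‖ * 4 ^ N) := by
            apply mul_le_mul _ (h5.trans h1) zero_le_one (by positivity)
            exact mul_le_mul_of_nonneg_right h2 hCR0
        _ = (4 ^ N * CR) * (‖Complex.cos (w v) ^ N‖ * ‖v + (B : ℂ)‖ ^ m) := by ring
        _ ≤ C₁ * (‖Complex.cos (w v) ^ N‖ * ‖v + (B : ℂ)‖ ^ m) := by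
            apply mul_le_mul_of_nonneg_right _ (by positivity)
            rw [hC₁]
            apply mul_le_mul_of_nonneg_left _ h4N.le
            linarith
  have hC₁0 : 0 ≤ C₁ := by rw [hC₁]; positivity
  refine ⟨C₁ * (σ + B) ^ m, m, by positivity, Nat.cast_nonneg m, fun s hs => ?_⟩
  have hs' := abs_le.1 (hs.trans (le_abs_self K))
  have ha : -σ ≤ s.re := by linarith [hs'.1]
  have hb : s.re ≤ 1 + σ := by linarith [hs'.2]
  have h2 := key s ha hb
  rw [hh] at h2
  simp only [] at h2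
  rw [norm_div, div_le_iff₀ (hpos s ha hb), norm_mul, norm_pow (s + (B : ℂ))] at h2
  refine h2.trans ?_
  have h3 : ‖s + (B : ℂ)‖ ≤ (σ + B) * (1 + |s.im|) := by
    have h4 : ‖s + (B : ℂ)‖ ≤ ‖s‖ + B := by
      refine (norm_add_le _ _).trans_eq ?_
      rw [Complex.norm_real, Real.norm_of_nonneg (by linarith)]
    have h5 : ‖s‖ ≤ |s.re| + |s.im| := Complex.norm_le_abs_re_add_abs_im s
    have h6 : |s.re| ≤ σ := hs.trans ((le_abs_self K).trans hσK)
    have h7 := abs_nonneg s.im
    nlinarith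
  rw [Real.rpow_natCast]
  calc C₁ * (‖Complex.cos (w s) ^ N‖ * ‖s + (B : ℂ)‖ ^ m)
      ≤ C₁ * (Real.exp (Real.pi * Λ * |s.im|) * ((σ + B) * (1 + |s.im|)) ^ m) := by
        apply mul_le_mul_of_nonneg_left _ hC₁0
        apply mul_le_mul (hcu s) (pow_le_pow_left₀ (norm_nonneg _) h3 m) (by positivity) (by positivity)
    _ = _ := by rw [mul_pow]; ring

theorem taskQ : TaskQ := fun _ _ h => strip h

end Pool.Agent.H394R3.PFQ
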