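import Pool.Agent.H902R3.Task469I
import Pool.Agent.H336R4.PF.Defs

/-!
# TASK W: a nontrivial element of the Selberg class with bounded prime square sum
-/

set_option autoImplicit false

open Filter Topology

namespace Pool.Agent.H394R3.PFW

open Finset Pool.Agent.H469R10.HO Pool.Agent.H902R3.I469 Pool.Agent.H336R4.PF

/-- `Core` with a slightly stronger bound for the coefficients at primes. -/
def CoreStrong : Prop := ∃ (m : ℕ) (c : ℝ) (β α : ℕ → ℝ) (σ : ℝ), 1 ≤ m ∧ 0 < c ∧ (σ = 1 ∨ σ = -1) ∧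
  (∀ p : ℕ, p.Prime → |β p| ≤ (p : ℝ) ^ (-(1 / 2 + m / lamOf m)) * (p : ℝ) ^ (-(1 / (6 * lamOf m)))) ∧
  (∀ n : ℕ, 1 ≤ n → α n = if Squarefree n then ∏ p ∈ n.primeFactors, β p else 0) ∧
  Summable (fun n => |α n|) ∧
  (∀ x : ℝ, 0 < x → ∑' n, α n * Real.cos (uu c (lamOf m) n * x) =
      σ * x ^ (2 * m) * ∑' n, α n * Real.cos (uu c (lamOf m) n / x))

/-- the relation forces a nonzero coefficient at some prime -/
theorem nontriv {m : ℕ} {c σ : ℝ} (hm : 1 ≤ m) (hc : 0 < c) (hσ : σ = 1 ∨ σ = -1) {β α : ℕ → ℝ}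
    (hα : ∀ n : ℕ, 1 ≤ n → α n = if Squarefree n then ∏ p ∈ n.primeFactors, β p else 0)
    (hrel : ∀ x : ℝ, 0 < x → ∑' n, α n * Real.cos (uu c (lamOf m) n * x) =
      σ * x ^ (2 * m) * ∑' n, α n * Real.cos (uu c (lamOf m) n / x)) :
    ∃ p : ℕ, p.Prime ∧ β p ≠ 0 := by
  by_contra hcon
  push Not at hcon
  have h2 : ∀ n, 2 ≤ n → α n = 0 := by
    intro n hn
    rw [hα n (by omega)]
    split_ifs with hs
    · obtain ⟨p, hp, hpn⟩ := Nat.exists_prime_and_dvd (show n ≠ 1 by omega)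
      apply Finset.prod_eq_zero (i := p)
      · exact Nat.mem_primeFactors.2 ⟨hp, hpn, by omega⟩
      · exact hcon p hp
    · rfl
  have h1 : α 1 = 1 := by rw [hα 1 le_rfl]; simp
  have hu0 : uu c (lamOf m) 0 = 0 := uu_zero (lam_pos m)
  have hu1 : uu c (lamOf m) 1 = c := by unfold uu; simp
  have e1 : ∀ x : ℝ, ∑' n, α n * Real.cos (uu c (lamOf m) n * x) = α 0 + Real.cos (c * x) := by
    intro x
    rw [tsum_eq_sum (s := Finset.range 2)]
    · rw [Finset.sum_range_succ, Finset.sum_range_one, hu0, hu1, h1]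
      simp
    · intro n hn
      rw [Finset.mem_range, not_lt] at hn
      rw [h2 n hn, zero_mul]
  have e2 : ∀ x : ℝ, ∑' n, α n * Real.cos (uu c (lamOf m) n / x) = α 0 + Real.cos (c / x) := by
    intro x
    rw [tsum_eq_sum (s := Finset.range 2)]
    · rw [Finset.sum_range_succ, Finset.sum_range_one, hu0, hu1, h1]
      simp
    · intro n hn
      rw [Finset.mem_range, not_lt] at hn
      rw [h2 n hn, zero_mul]
  have hr : ∀ x : ℝ, 0 < x → α 0 + Real.cos (c * x) = σ * x ^ (2 * m) * (α 0 + Real.cos (c / x)) := by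
    intro x hx
    rw [← e1, ← e2]
    exact hrel x hx
  have hσσ : σ * σ = 1 := by rcases hσ with h | h <;> rw [h] <;> norm_num
  set X : ℕ → ℝ := fun k => 2 * Real.pi * ((k : ℝ) + 1) / c with hX
  have hpi := Real.pi_pos
  have hXpos : ∀ k, 0 < X k := fun k => by rw [hX]; positivity
  have hXt : Tendsto X atTop atTop := by
    have h3 : Tendsto (fun k : ℕ => (k : ℝ) + 1) atTop atTop :=
      tendsto_atTop_add_const_right _ _ tendsto_natCast_atTop_atTop
    have h4 := h3.const_mul_atTop (show 0 < 2 * Real.pi / c by positivity)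
    refine h4.congr fun k => ?_
    rw [hX]
    ring
  have hcX : ∀ k, Real.cos (c * X k) = 1 := by
    intro k
    have : c * X k = ((k + 1 : ℕ) : ℝ) * (2 * Real.pi) := by
      rw [hX]
      push_cast
      field_simp
    rw [this, Real.cos_nat_mul_two_pi]
  have hXr : ∀ k, α 0 + Real.cos (c / X k) = σ * (α 0 + 1) * ((X k) ^ (2 * m))⁻¹ := by
    intro k
    have h5 := hr (X k) (hXpos k)
    rw [hcX] at h5
    have h6 : (X k) ^ (2 * m) ≠ 0 := (pow_pos (hXpos k) _).ne'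
    rw [h5]
    field_simp
    linear_combination (-(α 0 + Real.cos (c / X k))) * hσσ
  have hl1 : Tendsto (fun k => α 0 + Real.cos (c / X k)) atTop (𝓝 (α 0 + Real.cos 0)) := by
    apply Tendsto.const_add
    exact (Real.continuous_cos.tendsto 0).comp (tendsto_const_nhds.div_atTop hXt)
  have hl2 : Tendsto (fun k => α 0 + Real.cos (c / X k)) atTop (𝓝 (σ * (α 0 + 1) * 0)) := by
    have h7 : Tendsto (fun k => ((X k) ^ (2 * m))⁻¹) atTop (𝓝 0) :=
      tendsto_inv_atTop_zero.comp ((tendsto_pow_atTop (by omega)).comp hXt)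
    refine (h7.const_mul (σ * (α 0 + 1))).congr fun k => ?_
    exact (hXr k).symm
  have h0 : α 0 + 1 = 0 := by
    have := tendsto_nhds_unique hl1 hl2
    rw [Real.cos_zero, mul_zero] at this
    exact this
  have hc1 : ∀ k, Real.cos (c / X k) = 1 := by
    intro k
    have h8 := hXr k
    rw [h0, mul_zero, zero_mul] at h8
    linarith
  have hev : ∀ᶠ k in atTop, c / X k < 2 * Real.pi :=
    (tendsto_const_nhds.div_atTop hXt).eventually (gt_mem_nhds (by positivity))
  obtain ⟨k, hk⟩ := hev.exists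
  have h9 : 0 < c / X k := div_pos hc (hXpos k)
  have h10 := (Real.cos_eq_one_iff_of_lt_of_lt (by linarith) hk).1 (hc1 k)
  exact h9.ne' h10

/-- logarithm coefficients, supported on the prime powers -/
noncomputable def bt (m : ℕ) (β : ℕ → ℝ) (n : ℕ) : ℂ := by
  classical exact if IsPrimePow n then bb m β n else 0

theorem bt_pow {m : ℕ} {β : ℕ → ℝ} {p k : ℕ} (hp : p.Prime) : bt m β (p ^ (k + 1)) = bb m β (p ^ (k + 1)) := by
  unfold bt
  rw [if_pos]
  exact hp.isPrimePow.pow (by omega)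

theorem bt_zero {m : ℕ} {β : ℕ → ℝ} {n : ℕ} (hn : ¬ IsPrimePow n) : bt m β n = 0 := by
  unfold bt
  rw [if_neg hn]

theorem norm_bt_le {m : ℕ} {β : ℕ → ℝ}
    (hβ : ∀ p : ℕ, p.Prime → |β p| ≤ (p : ℝ) ^ (-(1 / 2 + m / lamOf m))) (n : ℕ) : ‖bt m β n‖ ≤ 1 := by
  by_cases h : IsPrimePow n
  · unfold bt
    rw [if_pos h]
    obtain ⟨p, k, hp, hk, rfl⟩ := h
    exact norm_bb_le hβ (Nat.prime_iff.2 hp) (by omega)
  · rw [bt_zero h, norm_zero]
    exact zero_le_one

theorem exp_bt {m : ℕ} {β : ℕ → ℝ}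
    (hβ : ∀ p : ℕ, p.Prime → |β p| ≤ (p : ℝ) ^ (-(1 / 2 + m / lamOf m)))
    {s : ℂ} (hs : 1 < s.re) : LSeries (ff m β) s = Complex.exp (LSeries (bt m β) s) := by
  have hE := euler (m := m) hβ hs
  have hsum : LSeriesSummable (bt m β) s :=
    LSeriesSummable_of_bounded_of_one_lt_re (m := 1) (fun n _ => norm_bt_le hβ n) hs
  have h1 : HasSum (LSeries.term (bt m β) s) (LSeries (bt m β) s) := hsum.hasSum
  have hsupp : Function.support (LSeries.term (bt m β) s) ⊆ {n | IsPrimePow n} := by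
    intro n hn
    by_contra hcon
    apply hn
    rcases eq_or_ne n 0 with rfl | h0
    · exact LSeries.term_zero _ _
    · rw [LSeries.term_of_ne_zero h0, bt_zero hcon, zero_div]
  have h2 := (hasSum_subtype_iff_of_support_subset hsupp).2 h1
  have h3 : HasSum ((LSeries.term (bt m β) s ∘ Subtype.val) ∘ Nat.Primes.prodNatEquiv)
      (LSeries (bt m β) s) := (Equiv.hasSum_iff Nat.Primes.prodNatEquiv).2 h2
  have hterm : ∀ (p : Nat.Primes) (k : ℕ),
      ((LSeries.term (bt m β) s ∘ Subtype.val) ∘ Nat.Primes.prodNatEquiv) (p, k) =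
      bb m β ((p : ℕ) ^ (k + 1)) * ((p : ℕ) : ℂ) ^ (-(((k + 1 : ℕ) : ℂ) * s)) := by
    intro p k
    simp only [Function.comp_apply, Nat.Primes.coe_prodNatEquiv_apply]
    rw [LSeries.term_of_ne_zero (pow_ne_zero _ p.2.ne_zero), bt_pow p.2, Complex.cpow_neg,
      Complex.natCast_cpow_natCast_mul, div_eq_mul_inv]
    push_cast
    rfl
  have h4 : HasSum (fun p : Nat.Primes => ∑' k : ℕ, bb m β ((p : ℕ) ^ (k + 1)) *
      ((p : ℕ) : ℂ) ^ (-(((k + 1 : ℕ) : ℂ) * s))) (LSeries (bt m β) s) := by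
    apply h3.prod_fiberwise
    intro p
    have h5 : Summable (fun k : ℕ =>
        ((LSeries.term (bt m β) s ∘ Subtype.val) ∘ Nat.Primes.prodNatEquiv) (p, k)) :=
      h3.summable.prod_factor p
    have h6 := h5.hasSum
    simp only [hterm] at h6 ⊢
    exact h6
  exact hE.unique h4.cexp

theorem elt (hF : TaskF) (hG : TaskG) (hcore : CoreStrong) : Elt := by
  obtain ⟨m, c, β, α, σ, hm, hc, hσ, hβs, hα, hsum, hrel⟩ := hcore
  have hl := lam_pos m
  have hl1 := lam_ge m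
  have hβ : ∀ p : ℕ, p.Prime → |β p| ≤ (p : ℝ) ^ (-(1 / 2 + m / lamOf m)) := by
    intro p hp
    refine (hβs p hp).trans ?_
    have h1 : (1 : ℝ) ≤ p := by exact_mod_cast hp.one_lt.le
    have h2 : (p : ℝ) ^ (-(1 / (6 * lamOf m))) ≤ 1 := by
      apply Real.rpow_le_one_of_one_le_of_nonpos h1
      have : 0 < 1 / (6 * lamOf m) := by positivity
      linarith
    have h3 : 0 ≤ (p : ℝ) ^ (-(1 / 2 + m / lamOf m)) := by positivity
    nlinarith
  -- the theta relation
  have hrel2 := hG m hm α (uu c (lamOf m)) hsum (uu_zero hl) (fun n hn => uu_pos hc hn) σ hσ hrel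
  obtain ⟨ε, hε⟩ : ∃ ε : ℝ, ε = (-1) ^ (m + 1) * σ := ⟨_, rfl⟩
  have hε1 : ε = 1 ∨ ε = -1 := by
    rw [hε]
    rcases neg_one_pow_eq_or ℝ (m + 1) with h | h <;> rcases hσ with h' | h' <;> rw [h, h'] <;> norm_num
  have hεε : ε * ε = 1 := by
    rcases hε1 with h | h <;> rw [h] <;> norm_num
  obtain ⟨Λ, hΛd, hΛfe, hΛc, hΛs, C, hΛg⟩ := hF c (lamOf m) (2 * m + 2) hc (by linarith)
    (by have : (0 : ℝ) ≤ m := Nat.cast_nonneg m
        linarith)
    (fun n => α n * uu c (lamOf m) n ^ (2 * m + 1))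
    (by rw [uu_zero hl]; simp)
    (by
      refine Summable.of_nonneg_of_le (fun n => by
        apply mul_nonneg (abs_nonneg _)
        apply Real.rpow_nonneg
        rcases Nat.eq_zero_or_pos n with h | h
        · rw [h, uu_zero hl]
        · exact (uu_pos hc h).le) (fun n => ?_) hsum
      rcases Nat.eq_zero_or_pos n with h | h
      · subst h
        rw [uu_zero hl]
        simp
      · have hu := uu_pos (lam := lamOf m) hc h
        rw [abs_mul, abs_of_pos (pow_pos hu _), mul_assoc, ← Real.rpow_natCast,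
          ← Real.rpow_add hu]
        have : ((2 * m + 1 : ℕ) : ℝ) + -((2 * (m : ℝ) + 2) - 1) = 0 := by push_cast; ring
        rw [this, Real.rpow_zero, mul_one])
    ε hε1
    (by
      intro t ht
      have h1 := hrel2 t ht
      rw [hε]
      have h2 : t ^ (2 * (m : ℝ) + 2) = t ^ (2 * m + 2) := by
        rw [← Real.rpow_natCast]
        push_cast
        rfl
      rw [h2]
      exact h1)
  have hFser : ∀ s : ℂ, 2 < s.re → FF m c Λ s = LSeries (ff m β) s := by
    intro s hs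
    apply FF_series hc hα
    apply hΛs
    have hm0 : (0 : ℝ) ≤ m := Nat.cast_nonneg m
    have h1 : (((lamOf m : ℝ) : ℂ) * s + 1 / 6).re = lamOf m * s.re + 1 / 6 := by
      simp
    rw [h1]
    have h2 : lamOf m * 2 ≤ lamOf m * s.re := by
      apply mul_le_mul_of_nonneg_left hs.le hl.le
    have h3 : lamOf m = 2 * m + 2 - 1 / 3 := rfl
    nlinarith
  obtain ⟨ρ, C', hgr⟩ := FF_growth (m := m) (c := c) hΛg
  have hpole : ∀ s : ℂ, 0 < s.re → ∀ n : ℕ, ((lamOf m : ℝ) : ℂ) * s + 1 / 6 ≠ -(n : ℂ) := by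
    intro s hs n h
    have h1 := congrArg Complex.re h
    have h2 : (((lamOf m : ℝ) : ℂ) * s + 1 / 6).re = lamOf m * s.re + 1 / 6 := by simp
    rw [h2] at h1
    simp only [Complex.neg_re, Complex.natCast_re] at h1
    have h3 : (0 : ℝ) ≤ n := Nat.cast_nonneg n
    have h4 := mul_pos hl hs
    linarith
  refine ⟨ff m β, ⟨?_, ?_, ⟨0, FF m c Λ, FF_diff hΛd, ⟨ρ, C', hgr⟩, ?_,
    ⟨Real.exp (-(lamOf m * Real.log c)), Real.exp_pos _, 1, fun _ => lamOf m, fun _ => 1 / 6, (ε : ℂ),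
      fun _ => hl, fun _ => by norm_num, ?_, ?_⟩⟩, ⟨bt m β, ?_, 0, by norm_num, 1, ?_, ?_⟩⟩, ?_, ?_⟩
  · unfold ff
    rw [fr_one]
    simp
  · intro e he
    refine ⟨1, fun n hn => ?_⟩
    have h1 : ‖ff m β n‖ ≤ 1 := by
      unfold ff
      rw [Complex.norm_real, Real.norm_eq_abs]
      exact abs_fr_le hβ n
    have h2 : (1 : ℝ) ≤ (n : ℝ) ^ e := Real.one_le_rpow (by exact_mod_cast hn) he.le
    linarith
  · intro s hs
    rw [pow_zero, one_mul]
    exact FF_eq hΛd hβ hFser hs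
  · rcases hε1 with h | h <;> rw [h] <;> simp
  · intro s hs0 hs1
    have g1 := FF_completed (m := m) (c := c) (Λ := Λ) (s := s) (hpole s hs0)
    have g2 := FF_completed (m := m) (c := c) (Λ := Λ) (s := 1 - starRingEnd ℂ s)
      (hpole _ (by simp; linarith))
    simp only [pow_zero, div_one, Finset.univ_unique, Finset.prod_singleton]
    have g1' : ((Real.exp (-(lamOf m * Real.log c)) : ℝ) : ℂ) ^ s *
        Complex.Gamma (((lamOf m : ℝ) : ℂ) * s + 1 / 6) * FF m c Λ s =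
        ((Real.exp (Real.log c * (1 / 6 - 2 * m - 1)) : ℝ) : ℂ) *
        Λ (((lamOf m : ℝ) : ℂ) * s + 1 / 6) := by
      rw [← g1]; ring
    have g2' : ((Real.exp (-(lamOf m * Real.log c)) : ℝ) : ℂ) ^ (1 - starRingEnd ℂ s) *
        Complex.Gamma (((lamOf m : ℝ) : ℂ) * (1 - starRingEnd ℂ s) + 1 / 6) *
        FF m c Λ (1 - starRingEnd ℂ s) =
        ((Real.exp (Real.log c * (1 / 6 - 2 * m - 1)) : ℝ) : ℂ) *
        Λ (((lamOf m : ℝ) : ℂ) * (1 - starRingEnd ℂ s) + 1 / 6) := by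
      rw [← g2]; ring
    rw [g1', g2', map_mul, Complex.conj_ofReal, ← hΛc]
    have h3 : starRingEnd ℂ (((lamOf m : ℝ) : ℂ) * (1 - starRingEnd ℂ s) + 1 / 6) =
        (((2 * (m : ℝ) + 2 : ℝ)) : ℂ) - (((lamOf m : ℝ) : ℂ) * s + 1 / 6) := by
      rw [map_add, map_mul, map_sub, map_one, Complex.conj_conj, Complex.conj_ofReal, map_div₀,
        map_one]
      have h4 : starRingEnd ℂ (6 : ℂ) = 6 := Complex.conj_ofNat 6
      rw [h4]
      unfold lamOf
      push_cast
      ring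
    rw [h3, hΛfe]
    have h5 : (ε : ℂ) * ε = 1 := by exact_mod_cast hεε
    linear_combination (-((Real.exp (Real.log c * (1 / 6 - 2 * m - 1)) : ℝ) : ℂ) *
      Λ (((lamOf m : ℝ) : ℂ) * s + 1 / 6)) * h5
  · intro n hn
    exact bt_zero hn
  · intro n _
    rw [Real.rpow_zero, mul_one]
    exact norm_bt_le hβ n
  · intro s hs
    exact exp_bt hβ hs
  · obtain ⟨p, hp, hne⟩ := nontriv hm hc hσ hα hrel
    refine ⟨p, hp.two_le, ?_⟩
    unfold ff
    rw [fr_prime hp]
    unfold gam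
    have hp0 : (0 : ℝ) < p := by exact_mod_cast hp.pos
    exact_mod_cast mul_ne_zero hne (Real.rpow_pos_of_pos hp0 _).ne'
  · have hs : Summable (fun n : ℕ => (n : ℝ) ^ (-(1 + 1 / (3 * lamOf m)))) := by
      rw [Real.summable_nat_rpow]
      have : 0 < 1 / (3 * lamOf m) := by positivity
      linarith
    refine ⟨∑' n : ℕ, (n : ℝ) ^ (-(1 + 1 / (3 * lamOf m))), fun N => ?_⟩
    refine le_trans (Finset.sum_le_sum (g := fun n : ℕ => (n : ℝ) ^ (-(1 + 1 / (3 * lamOf m)))) ?_)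
      (hs.sum_le_tsum _ (fun n _ => by positivity))
    intro p hp
    have hp := (Finset.mem_filter.1 hp).2
    have hp0 : (0 : ℝ) < p := by exact_mod_cast hp.pos
    have h1 : ‖ff m β p‖ ≤ (p : ℝ) ^ (-(1 / (6 * lamOf m))) := by
      unfold ff
      rw [Complex.norm_real, Real.norm_eq_abs, fr_prime hp]
      unfold gam
      rw [abs_mul, abs_of_pos (Real.rpow_pos_of_pos hp0 _)]
      calc |β p| * (p : ℝ) ^ kap m
          ≤ ((p : ℝ) ^ (-kap m) * (p : ℝ) ^ (-(1 / (6 * lamOf m)))) * (p : ℝ) ^ kap m := by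
            gcongr
            exact hβs p hp
        _ = (p : ℝ) ^ (-kap m + -(1 / (6 * lamOf m)) + kap m) := by
            rw [Real.rpow_add hp0, Real.rpow_add hp0]
        _ = _ := by
            congr 1
            ring
    have h2 : ‖ff m β p‖ ^ 2 ≤ ((p : ℝ) ^ (-(1 / (6 * lamOf m)))) ^ 2 :=
      pow_le_pow_left₀ (norm_nonneg _) h1 2
    rw [div_le_iff₀ hp0]
    refine h2.trans_eq ?_
    have h3 : (p : ℝ) ^ (-(1 + 1 / (3 * lamOf m))) * p =
        (p : ℝ) ^ (-(1 + 1 / (3 * lamOf m)) + 1) := by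
      rw [Real.rpow_add hp0, Real.rpow_one]
    rw [h3, ← Real.rpow_natCast, ← Real.rpow_mul hp0.le]
    congr 1
    field_simp
    push_cast
    ring

end Pool.Agent.H394R3.PFW
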