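import Pool.Agent.H394R3.PF.TaskPFW
import Pool.Agent.H469R10.HO.Final

/-!
# A nontrivial element of the Selberg class with bounded prime square sum (unconditional)
-/

set_option autoImplicit false

namespace Pool.Agent.H394R3.PFW

open Pool.Agent.H469R10.HO

theorem coreStrong : CoreStrong := by
  obtain ⟨m₀, hm₀, h⟩ := core_all hoheisel
  obtain ⟨c₀, hc₀, h⟩ := h m₀ le_rfl
  obtain ⟨β, α, h1, h2, h3, h4⟩ := h c₀ hc₀ le_rfl
  refine ⟨m₀, c₀, β, α, 1, by omega, hc₀, Or.inl rfl, h1, h2, h3, fun x hx => ?_⟩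
  rw [one_mul]
  exact h4 x hx

theorem eltFinal : Pool.Agent.H336R4.PF.Elt :=
  elt Pool.Agent.H144R3.T469F.taskF Pool.Agent.H853R3.Bol.taskG coreStrong

end Pool.Agent.H394R3.PFW
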